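import Pool.Agent.H71.AL.Targets

set_option autoImplicit false

open Set
open Pool.Agent.AL

namespace Pool.Agent.H23.ALV

section

variable {ι : Type}

/-- conjugate families -/
structure Kj (G G' : ι → ℝ → ℝ) (g : ℝ ≃ₜ ℝ) : Prop where
  mo : StrictMono g
  eq : ∀ i x, g (G i x) = G' i (g x)

theorem Kj.symm {G G' : ι → ℝ → ℝ} {g : ℝ ≃ₜ ℝ} (h : Kj G G' g) : Kj G' G g.symm := by
  constructor
  · intro a b hab
    have : g (g.symm a) < g (g.symm b) := by simpa using hab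
    exact h.mo.lt_iff_lt.1 this
  · intro i x
    apply g.injective
    rw [h.eq]
    simp

theorem kinc {G G' : ι → ℝ → ℝ} {g : ℝ ≃ₜ ℝ} (h : Kj G G' g) {i : ι} (H : Inc rl (G i)) :
    Inc rl (G' i) := by
  intro a b hab
  obtain ⟨a, rfl⟩ := g.surjective a
  obtain ⟨b, rfl⟩ := g.surjective b
  show G' i (g a) < G' i (g b)
  rw [← h.eq, ← h.eq]
  exact h.mo (H a b (h.mo.lt_iff_lt.1 hab))

theorem kdec {G G' : ι → ℝ → ℝ} {g : ℝ ≃ₜ ℝ} (h : Kj G G' g) {i : ι} (H : Dec rl (G i)) :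
    Dec rl (G' i) := by
  intro a b hab
  obtain ⟨a, rfl⟩ := g.surjective a
  obtain ⟨b, rfl⟩ := g.surjective b
  show G' i (g b) < G' i (g a)
  rw [← h.eq, ← h.eq]
  exact h.mo (H a b (h.mo.lt_iff_lt.1 hab))

theorem kit {G G' : ι → ℝ → ℝ} {g : ℝ ≃ₜ ℝ} (h : Kj G G' g) (i : ι) (n : ℕ) (x : ℝ) :
    (G' i)^[n] (g x) = g ((G i)^[n] x) := by
  have hs : Function.Semiconj g (G i) (G' i) := fun x => h.eq i x
  exact ((hs.iterate_right n) x).symm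

theorem klm {G G' : ι → ℝ → ℝ} {g : ℝ ≃ₜ ℝ} (h : Kj G G' g) {i : ι} {y x : ℝ}
    (H : Lm rl (G i) y x) : Lm rl (G' i) (g y) (g x) := by
  rcases H with ⟨h1, h2, h3⟩ | ⟨h1, h2, h3⟩
  · left
    refine ⟨h.mo h1, ?_, ?_⟩
    · intro n
      show (G' i)^[n] (g y) < g x
      rw [kit h]; exact h.mo (h2 n)
    · intro z hz
      obtain ⟨z, rfl⟩ := g.surjective z
      obtain ⟨n, hn⟩ := h3 z (h.mo.lt_iff_lt.1 hz)
      refine ⟨n, ?_⟩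
      show g z < (G' i)^[n] (g y)
      rw [kit h]; exact h.mo hn
  · right
    refine ⟨h.mo h1, ?_, ?_⟩
    · intro n
      show g x < (G' i)^[n] (g y)
      rw [kit h]; exact h.mo (h2 n)
    · intro z hz
      obtain ⟨z, rfl⟩ := g.surjective z
      obtain ⟨n, hn⟩ := h3 z (h.mo.lt_iff_lt.1 hz)
      refine ⟨n, ?_⟩
      show (G' i)^[n] (g y) < g z
      rw [kit h]; exact h.mo hn

theorem kgd {G G' : ι → ℝ → ℝ} {g : ℝ ≃ₜ ℝ} (h : Kj G G' g) {p q : ℝ}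
    (H : Gd rl G p q) : Gd rl G' (g p) (g q) := by
  refine ⟨h.mo H.1, ?_⟩
  intro i
  rcases H.2 i with h1 | h1
  · left
    intro x hpx hxq
    obtain ⟨x, rfl⟩ := g.surjective x
    rintro ⟨h2, h3⟩
    rw [← h.eq] at h2 h3
    exact h1 x (h.mo.lt_iff_lt.1 hpx) (h.mo.lt_iff_lt.1 hxq)
      ⟨h.mo.lt_iff_lt.1 h2, h.mo.lt_iff_lt.1 h3⟩
  · right
    intro x hpx hxq
    obtain ⟨x, rfl⟩ := g.surjective x
    rw [← h.eq, h1 x (h.mo.lt_iff_lt.1 hpx) (h.mo.lt_iff_lt.1 hxq)]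

theorem kws {G G' : ι → ℝ → ℝ} {g : ℝ ≃ₜ ℝ} (h : Kj G G' g) {x : ℝ}
    (H : Ws rl G x) : Ws rl G' (g x) := by
  obtain ⟨p, q, h1, h2, h3⟩ := H
  exact ⟨g p, g q, kgd h h1, h.mo h2, h.mo h3⟩

theorem kws' {G G' : ι → ℝ → ℝ} {g : ℝ ≃ₜ ℝ} (h : Kj G G' g) {x : ℝ}
    (H : Ws rl G' (g x)) : Ws rl G x := by
  have := kws h.symm H
  simpa using this

theorem ksr {G G' : ι → ℝ → ℝ} {g : ℝ ≃ₜ ℝ} (h : Kj G G' g) {x y : ℝ}
    (H : Sr rl G x y) : Sr rl G' (g x) (g y) := by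
  obtain ⟨p, q, h1, h2, h3⟩ := H
  exact ⟨g p, g q, kgd h h1, ⟨h.mo h2.1, h.mo h2.2⟩, h.mo h3.1, h.mo h3.2⟩

theorem kes {G G' : ι → ℝ → ℝ} {g : ℝ ≃ₜ ℝ} (h : Kj G G' g) {x : ℝ}
    (H : Es rl G x) : Es rl G' (g x) := by
  rcases H with (⟨i, y, h1, h2⟩ | ⟨i, h1, h2⟩) | ⟨h1, y, h2⟩
  · exact Or.inl (Or.inl ⟨i, g y, kinc h h1, klm h h2⟩)
  · exact Or.inl (Or.inr ⟨i, kdec h h1, by rw [← h.eq, h2]⟩)
  · right
    refine ⟨fun hw => h1 (kws' h hw), g y, ?_⟩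
    rcases h2 with ⟨h3, h4⟩ | ⟨h3, h4⟩
    · left
      refine ⟨h.mo h3, ?_⟩
      intro z hz1 hz2
      obtain ⟨z, rfl⟩ := g.surjective z
      exact ksr h (h4 z (h.mo.lt_iff_lt.1 hz1) (h.mo.lt_iff_lt.1 hz2))
    · right
      refine ⟨h.mo h3, ?_⟩
      intro z hz1 hz2
      obtain ⟨z, rfl⟩ := g.surjective z
      exact ksr h (h4 z (h.mo.lt_iff_lt.1 hz1) (h.mo.lt_iff_lt.1 hz2))

theorem kes' {G G' : ι → ℝ → ℝ} {g : ℝ ≃ₜ ℝ} (h : Kj G G' g) {x : ℝ}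
    (H : Es rl G' (g x)) : Es rl G x := by
  have := kes h.symm H
  simpa using this

theorem kfc {G G' : ι → ℝ → ℝ} {g : ℝ ≃ₜ ℝ} (h : Kj G G' g) {x : ℝ}
    (H : x ∈ Fc G) : g x ∈ Fc G' := by
  have h1 : g '' {z | Es rl G z} ⊆ {z | Es rl G' z} := by
    rintro _ ⟨z, hz, rfl⟩
    exact kes h hz
  have h2 : g x ∈ g '' closure {z | Es rl G z} := ⟨x, H, rfl⟩
  rw [g.image_closure] at h2
  exact closure_mono h1 h2

theorem kfc' {G G' : ι → ℝ → ℝ} {g : ℝ ≃ₜ ℝ} (h : Kj G G' g) {x : ℝ}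
    (H : g x ∈ Fc G') : x ∈ Fc G := by
  have := kfc h.symm H
  simpa using this

theorem ksc' {G G' : ι → ℝ → ℝ} {g : ℝ ≃ₜ ℝ} (h : Kj G G' g) {x y : ℝ}
    (H : SC G' (g x) (g y)) : SC G x y := by
  intro z hz hzF
  refine H (g z) ?_ (kfc h hzF)
  rw [mem_uIcc] at hz ⊢
  rcases hz with ⟨h1, h2⟩ | ⟨h1, h2⟩
  · exact Or.inl ⟨h.mo.monotone h1, h.mo.monotone h2⟩
  · exact Or.inr ⟨h.mo.monotone h1, h.mo.monotone h2⟩

end

theorem pf_CRC : T_CRC := by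
  intro ι G G' g hg heq D hD
  have h : Kj G G' g := ⟨hg, heq⟩
  refine ⟨?_, ?_, ?_⟩
  · intro x hx
    obtain ⟨x, rfl⟩ := g.surjective x
    exact ⟨x, hD.es x (kes' h hx), rfl⟩
  · rintro _ ⟨x, hx, rfl⟩ hF
    exact kes h (hD.cl x hx (kfc' h hF))
  · rintro _ ⟨x, hx, rfl⟩ _ ⟨y, hy, rfl⟩ hxy hs hw
    obtain ⟨i, hi⟩ := hD.tr x hx y hy (hg.lt_iff_lt.1 hxy) (ksc' h hs) (fun H => hw (kws h H))
    exact ⟨i, by rw [← heq, hi]⟩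

end Pool.Agent.H23.ALV
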