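import Pool.Agent.H71.AL.Targets

set_option autoImplicit false

open Set
open Pool.Agent.AL

namespace Pool.Agent.H23.ALV

theorem pf_NRM : T_NRM := by
  intro h hL
  have hper : Function.Periodic (fun x => h x - x) 1 := by
    intro x
    show h (x + 1) - (x + 1) = h x - x
    rw [hL.2]; ring
  have hc : Continuous (fun x => h x - x) := h.continuous.sub continuous_id
  obtain ⟨x0, hx0, hmin⟩ := (isCompact_Icc (a := (0:ℝ)) (b := 1)).exists_isMinOn
    ⟨0, by simp⟩ hc.continuousOn
  have hall : ∀ x, h x0 - x0 ≤ h x - x := by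
    intro x
    obtain ⟨y, hy, hxy⟩ := hper.exists_mem_Ico₀ one_pos x
    have h1 := hmin (Ico_subset_Icc_self hy)
    have h2 : h x - x = h y - y := hxy
    have h3 : h x0 - x0 ≤ h y - y := h1
    rw [h2]; exact h3
  refine ⟨⌊h x0 - x0⌋, ?_, ⟨x0, ?_⟩, ?_⟩
  · intro x
    have h1 := Int.floor_le (h x0 - x0)
    have h2 := hall x
    linarith
  · have := Int.lt_floor_add_one (h x0 - x0)
    linarith
  · rintro m' h1 ⟨x, hx⟩
    symm
    rw [Int.floor_eq_iff]
    constructor
    · have := h1 x0
      linarith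
    · have := hall x
      linarith

end Pool.Agent.H23.ALV
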