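import Pool.Agent.H71.AL.Targets

set_option autoImplicit false

open Set
open Pool.Agent.AL

namespace Pool.Agent.H23.ALV

structure Cp where
  v : ℕ

theorem pf_REA : T_REA := by
  classical
  intro y hy
  let r : Cp → Cp → Prop := fun a b => lt y a.v b.v
  have hirr : ∀ a, ¬ r a a := fun a => hy.ln.1 a.v
  have htr : ∀ a b c, r a b → r b c → r a c := fun a b c => hy.ln.2.2 a.v b.v c.v
  have htri : ∀ a b, r a b ∨ a = b ∨ r b a := by
    intro a b
    by_cases h : a.v = b.v
    · right; left
      cases a; cases b; simpa using h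
    · rcases hy.ln.2.1 a.v b.v h with h1 | h1
      · exact Or.inl h1
      · exact Or.inr (Or.inr h1)
  let L : LinearOrder Cp :=
    { le := fun a b => a = b ∨ r a b
      lt := r
      le_refl := fun a => Or.inl rfl
      le_trans := by
        rintro a b c (rfl | h1) (rfl | h2)
        · exact Or.inl rfl
        · exact Or.inr h2
        · exact Or.inr h1
        · exact Or.inr (htr a b c h1 h2)
      lt_iff_le_not_ge := by
        intro a b
        constructor
        · intro h
          refine ⟨Or.inr h, ?_⟩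
          rintro (rfl | h1)
          · exact hirr _ h
          · exact hirr _ (htr _ _ _ h h1)
        · rintro ⟨rfl | h, h2⟩
          · exact absurd (Or.inl rfl) h2
          · exact h
      le_antisymm := by
        rintro a b (rfl | h1) (h2 | h2)
        · rfl
        · rfl
        · exact h2.symm
        · exact absurd (htr _ _ _ h1 h2) (hirr _)
      le_total := by
        intro a b
        rcases htri a b with h | h | h
        · exact Or.inl (Or.inr h)
        · exact Or.inl (Or.inl h)
        · exact Or.inr (Or.inr h)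
      toDecidableLE := Classical.decRel _ }
  let _ : LinearOrder Cp := L
  have : Countable Cp := by
    have : Function.Injective Cp.v := by
      intro a b h; cases a; cases b; simpa using h
    exact this.countable
  have : Nonempty Cp := ⟨⟨0⟩⟩
  have : DenselyOrdered Cp := ⟨by
    intro a b h
    obtain ⟨c, h1, h2⟩ := hy.den a.v b.v h
    exact ⟨⟨c⟩, h1, h2⟩⟩
  have : NoMinOrder Cp := ⟨by
    intro a
    obtain ⟨b, hb⟩ := hy.bot a.v
    exact ⟨⟨b⟩, hb⟩⟩
  have : NoMaxOrder Cp := ⟨by
    intro a
    obtain ⟨b, hb⟩ := hy.top a.v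
    exact ⟨⟨b⟩, hb⟩⟩
  obtain ⟨φ⟩ := Order.iso_of_countable_dense Cp ℚ
  refine ⟨fun n => ((φ ⟨n⟩ : ℚ) : ℝ), ?_, ?_, ?_⟩
  · intro m n h
    have h1 : φ ⟨m⟩ = φ ⟨n⟩ := Rat.cast_injective (α := ℝ) h
    have h2 := φ.injective h1
    simpa using h2
  · intro m n
    rw [Rat.cast_lt]
    rw [φ.lt_iff_lt]
    exact Iff.rfl
  · intro p q hpq
    obtain ⟨s, h1, h2⟩ := exists_rat_btwn hpq
    refine ⟨s, ⟨(φ.symm s).v, ?_⟩, h1, h2⟩
    show ((φ (φ.symm s) : ℚ) : ℝ) = s
    rw [φ.apply_symm_apply]

end Pool.Agent.H23.ALV
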