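import Pool.Agent.H71.AL.Targets

set_option autoImplicit false

open Set
open Pool.Agent.AL

namespace Pool.Agent.H23.ALV

theorem pf_SIV (hI : T_CIV) : T_SIV := by
  intro y z hyz hS
  have hC := hI y z hyz hS.cy
  obtain ⟨g, h1, h2⟩ := hyz
  have hlt : ∀ m n, lt z (g m) (g n) ↔ lt y m n := by
    intro m n
    unfold lt
    rw [h1]
  have hit : ∀ n a, (z.2 0)^[n] (g a) = g ((y.2 0)^[n] a) := by
    intro n
    induction n with
    | zero => intro a; rfl
    | succ n ih =>
      intro a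
      rw [Function.iterate_succ_apply, Function.iterate_succ_apply, h2, ih]
  refine ⟨hC, ?_, ?_, ?_, ?_, ?_⟩
  · intro k a b hab
    obtain ⟨a, rfl⟩ := g.surjective a
    obtain ⟨b, rfl⟩ := g.surjective b
    rw [h2, h2, hlt]
    exact hS.inc k a b ((hlt a b).1 hab)
  · intro k m
    obtain ⟨m, rfl⟩ := g.surjective m
    rw [h2, h2, h2, h2, hS.com]
  · intro a b
    obtain ⟨a, rfl⟩ := g.surjective a
    obtain ⟨b, rfl⟩ := g.surjective b
    obtain ⟨n, hn⟩ := hS.cof a b
    refine ⟨n, ?_⟩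
    rw [hit, hlt]
    exact hn
  · intro k m
    obtain ⟨m, rfl⟩ := g.surjective m
    rw [h2, hlt]
    exact hS.nor k m
  · intro k
    obtain ⟨m, hm⟩ := hS.nor' k
    refine ⟨g m, ?_⟩
    rw [h2, h2, hlt]
    exact hm

end Pool.Agent.H23.ALV
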